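import Pool.Agent.H626R3.CT.Stmts

set_option autoImplicit false

/-! # The upper bound for the covering -/

open scoped Classical symmDiff

namespace Pool.Agent.H308R3.CTU

open Pool.Agent.H626R3.CT

theorem n_pos (j : ℕ) : 0 < n j := by
  unfold n t
  positivity

theorem same_refl (i : ℕ) (F : Finset ℕ) : Same i F F := fun _ _ => Iff.rfl

theorem same_symm {i : ℕ} {F G : Finset ℕ} (h : Same i F G) : Same i G F :=
  fun l hl => (h l hl).symm

theorem same_trans {i : ℕ} {F G H : Finset ℕ} (h1 : Same i F G) (h2 : Same i G H) :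
    Same i F H := fun l hl => (h1 l hl).trans (h2 l hl)

theorem same_flip {i : ℕ} {F G : Finset ℕ} (h : Same i F G) (S : Finset ℕ) :
    Same i (F ∆ S) (G ∆ S) := by
  intro l hl
  simp only [Finset.mem_symmDiff, h l hl]

/-- reflection -/
noncomputable def rf (j C : ℕ) (p : ℝ) : ℝ := 2 * (2 * (n j * C : ℕ) + ((n j : ℝ) - 1)) - p

theorem rf_rf (j C : ℕ) (p : ℝ) : rf j C (rf j C p) = p := by
  unfold rf
  ring

theorem refl_div (j a : ℕ) : refl j a / n j = a / n j := by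
  unfold Pool.Agent.H626R3.CT.refl
  rw [Nat.mul_add_div (n_pos j)]
  have h : n j - 1 - a % n j < n j := by
    have := n_pos j
    omega
  rw [Nat.div_eq_of_lt h, add_zero]

theorem ce_bound (i a : ℕ) : |ce i a - 2 * a| ≤ n i := by
  have h1 : n i * (a / n i) + a % n i = a := Nat.div_add_mod a (n i)
  have h2 : a % n i < n i := Nat.mod_lt _ (n_pos i)
  have h1' : ((n i * (a / n i) : ℕ) : ℝ) + ((a % n i : ℕ) : ℝ) = a := by exact_mod_cast h1
  have h2' : ((a % n i : ℕ) : ℝ) + 1 ≤ n i := by exact_mod_cast h2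
  have h3' : (0 : ℝ) ≤ ((a % n i : ℕ) : ℝ) := Nat.cast_nonneg _
  unfold ce
  rw [abs_le]
  constructor <;> linarith

theorem coord (hG : TOnGrid) (i : ℕ) (y : YY) :
    |P1 i y - 2 * y.x.a| ≤ 2 * n i ∧ |P2 i y - 2 * y.x.b| ≤ 2 * n i := by
  obtain ⟨-, h1, h2⟩ := hG i y
  have h3 := ce_bound i y.x.a
  have h4 := ce_bound i y.x.b
  rw [abs_le] at h1 h2 h3 h4
  constructor <;> rw [abs_le] <;> constructor <;> linarith [h1.1, h1.2, h2.1, h2.2, h3.1, h3.2, h4.1, h4.2]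

theorem cast_dist (a b : ℕ) : ((Nat.dist a b : ℕ) : ℝ) = |(a : ℝ) - b| := by
  unfold Nat.dist
  rcases le_total a b with h | h
  · rw [Nat.sub_eq_zero_of_le h, zero_add, Nat.cast_sub h, abs_of_nonpos]
    · ring
    · have : (a : ℝ) ≤ b := by exact_mod_cast h
      linarith
  · rw [Nat.sub_eq_zero_of_le h, add_zero, Nat.cast_sub h, abs_of_nonneg]
    have : (b : ℝ) ≤ a := by exact_mod_cast h
    linarith

theorem d1_le (hG : TOnGrid) (i : ℕ) (y z : YY) (K : ℝ) (h1 : |P1 i y - P1 i z| ≤ K)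
    (h2 : |P2 i y - P2 i z| ≤ K) : (d1 y.x z.x : ℝ) ≤ K + 4 * n i := by
  obtain ⟨h3, h4⟩ := coord hG i y
  obtain ⟨h5, h6⟩ := coord hG i z
  unfold d1
  push_cast
  rw [cast_dist, cast_dist]
  have h7 : |(y.x.a : ℝ) - z.x.a| ≤ K / 2 + 2 * n i := by
    rw [abs_le] at *
    constructor <;> linarith [h1.1, h1.2, h3.1, h3.2, h5.1, h5.2]
  have h8 : |(y.x.b : ℝ) - z.x.b| ≤ K / 2 + 2 * n i := by
    rw [abs_le] at *
    constructor <;> linarith [h2.1, h2.2, h4.1, h4.2, h6.1, h6.2]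
  linarith

/-- point in a feature -/
def Ft (i : ℕ) (p1 p2 : ℝ) (f : Fin 3 × ℤ × ℤ) : Prop := Feat i p1 p2 f.1 f.2.1 f.2.2

/-- the conclusion for one step -/
def Stp (i : ℕ) (f : YY → Fin 3 × ℤ × ℤ) (z z' : YY) : Prop :=
  (f z' = f z ∧ Same i z.F z'.F) ∨
  ∃ (j : ℕ) (v v' : YY), i < j ∧ Anti j v.x v'.x ∧ v'.F = v.F ∆ Finset.range (j + 1) ∧
    Same i z.F v.F ∧ |P1 i v - P1 i z| ≤ n i / 16 ∧ |P2 i v - P2 i z| ≤ n i / 16 ∧
    Same i v'.F z'.F ∧ |P1 i v' - P1 i z'| ≤ n i / 16 ∧ |P2 i v' - P2 i z'| ≤ n i / 16 ∧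
    ∀ q1 q2, Ft i q1 q2 (f z) → Ft i (rf j (v.x.a / n j) q1) (rf j (v.x.b / n j) q2) (f z')

/-- the invariant along a chain -/
def Inv (i : ℕ) (f : YY → Fin 3 × ℤ × ℤ) (y z : YY) : Prop :=
  (f z = f y ∧ Same i y.F z.F) ∨
  ∃ (j : ℕ) (w w' : YY), i < j ∧ Anti j w.x w'.x ∧ w'.F = w.F ∆ Finset.range (j + 1) ∧
    Same i y.F w.F ∧
    (∃ q1 q2, Ft i q1 q2 (f y) ∧ |P1 i w - q1| ≤ n i / 16 ∧ |P2 i w - q2| ≤ n i / 16) ∧
    Same i w'.F z.F ∧
    (∃ q1 q2, Ft i q1 q2 (f z) ∧ |P1 i w' - q1| ≤ n i / 16 ∧ |P2 i w' - q2| ≤ n i / 16) ∧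
    ∀ q1 q2, Ft i q1 q2 (f y) → Ft i (rf j (w.x.a / n j) q1) (rf j (w.x.b / n j) q2) (f z)

theorem step_of (hMR : TMoveRefl) (hOG : TOnGrid) (hFt : TFeat) (i : ℕ)
    (f : YY → Fin 3 × ℤ × ℤ) (hf : ∀ y, Ft i (P1 i y) (P2 i y) (f y)) (z z' : YY)
    (hc : (f z).1 = 0 ↔ (f z').1 = 0)
    (h : Cl i (1 / 16) z z' ∨ ∃ j v v', i < j ∧ Cl i (1 / 16) z v ∧ Anti j v.x v'.x ∧
      v'.F = v.F ∆ Finset.range (j + 1) ∧ Cl i (1 / 16) v' z') : Stp i f z z' := by
  have hn : (0 : ℝ) < n i := by exact_mod_cast n_pos i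
  obtain ⟨-, hF2, -, hF4⟩ := hFt hOG i
  rcases h with ⟨h1, h2, h3, -⟩ | ⟨j, v, v', hij, ⟨a1, a2, a3, -⟩, hA, hvF, ⟨b1, b2, b3, -⟩⟩
  · refine Or.inl ⟨?_, h3⟩
    obtain ⟨e1, e2, e3⟩ := hF2 _ _ _ _ _ _ _ _ _ _ (hf z) (hf z') (by linarith) (by linarith) hc
    exact (Prod.ext e1 (Prod.ext e2 e3)).symm
  · refine Or.inr ⟨j, v, v', hij, hA, hvF, a3, ?_, ?_, b3, ?_, ?_, ?_⟩
    · rw [abs_sub_comm]; linarith
    · rw [abs_sub_comm]; linarith
    · linarith
    · linarith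
    · obtain ⟨m1, m2⟩ := hMR i j v v' hij hA hvF
      obtain ⟨A', B', hAB⟩ := hF4 j (v.x.a / n j) (v.x.b / n j) hij _ _ _ _ _ (hf z)
      have k1 : |rf j (v.x.a / n j) (P1 i z) - P1 i z'| ≤ n i / 8 := by
        have e : rf j (v.x.a / n j) (P1 i z) - P1 i z' = (P1 i v' - P1 i z') - (P1 i z - P1 i v) := by
          rw [m1]
          unfold rf
          ring
        rw [e]
        have := abs_sub (P1 i v' - P1 i z') (P1 i z - P1 i v)
        linarith
      have k2 : |rf j (v.x.b / n j) (P2 i z) - P2 i z'| ≤ n i / 8 := by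
        have e : rf j (v.x.b / n j) (P2 i z) - P2 i z' = (P2 i v' - P2 i z') - (P2 i z - P2 i v) := by
          rw [m2]
          unfold rf
          ring
        rw [e]
        have := abs_sub (P2 i v' - P2 i z') (P2 i z - P2 i v)
        linarith
      obtain ⟨e1, e2, e3⟩ := hF2 _ _ _ _ _ _ _ _ _ _ (hAB _ _ (hf z)) (hf z') k1 k2 hc
      intro q1 q2 hq
      have := hAB q1 q2 hq
      unfold Ft
      rw [← e1, ← e2, ← e3]
      exact this

theorem inv_step (hA0 : TAnti) (hHo : THole) (hOG : TOnGrid) (hFt : TFeat) (i : ℕ)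
    (f : YY → Fin 3 × ℤ × ℤ) (hf : ∀ y, Ft i (P1 i y) (P2 i y) (f y)) (y z z' : YY)
    (hc : (f y).1 = 0 ↔ (f z').1 = 0) (h : Inv i f y z) (hs : Stp i f z z') :
    Inv i f y z' := by
  have hn : (0 : ℝ) < n i := by exact_mod_cast n_pos i
  obtain ⟨-, hF2, hF3, -⟩ := hFt hOG i
  rcases hs with ⟨s1, s2⟩ | ⟨j', v, v', hij', hA', hvF, c1, c2, c3, c4, c5, c6, c7⟩
  · rcases h with ⟨a1, a2⟩ | ⟨j, w, w', hij, hA, hwF, b1, b2, b3, b4, b5⟩
    · exact Or.inl ⟨s1.trans a1, same_trans a2 s2⟩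
    · refine Or.inr ⟨j, w, w', hij, hA, hwF, b1, b2, same_trans b3 s2, ?_, ?_⟩
      · rw [s1]; exact b4
      · rw [s1]; exact b5
  · rcases h with ⟨a1, a2⟩ | ⟨j, w, w', hij, hA, hwF, b1, b2, b3, b4, b5⟩
    · refine Or.inr ⟨j', v, v', hij', hA', hvF, same_trans a2 c1, ?_, c4, ?_, ?_⟩
      · exact ⟨P1 i z, P2 i z, a1 ▸ hf z, c2, c3⟩
      · exact ⟨P1 i z', P2 i z', hf z', c5, c6⟩
      · rw [← a1]; exact c7
    · obtain ⟨q1, q2, hq, hq1, hq2⟩ := b4
      obtain ⟨r1, r2⟩ := hF3 _ _ _ _ _ _ _ hq (hf z)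
      have k1 : |P1 i w' - P1 i v| ≤ 3 * n i := by
        rw [abs_le] at *
        constructor <;> linarith [hq1.1, hq1.2, r1.1, r1.2, c2.1, c2.2]
      have k2 : |P2 i w' - P2 i v| ≤ 3 * n i := by
        rw [abs_le] at *
        constructor <;> linarith [hq2.1, hq2.2, r2.1, r2.2, c3.1, c3.2]
      have k3 := d1_le hOG i w' v _ k1 k2
      have k4 : d1 w'.x v.x ≤ 20 * n i := by
        have : (d1 w'.x v.x : ℝ) ≤ 20 * n i := by linarith
        exact_mod_cast this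
      obtain ⟨e1, e2, e3⟩ := hHo i j j' w'.x w.x v.x v'.x hij hij' (hA0.1 _ _ _ hA) hA' k4
      subst e1
      have e4 : w'.x.a / n j = w.x.a / n j := by rw [hA.2.2.1, refl_div]
      have e5 : w'.x.b / n j = w.x.b / n j := by rw [hA.2.2.2, refl_div]
      have e6 : v.x.a / n j = w.x.a / n j := by rw [← e2, e4]
      have e7 : v.x.b / n j = w.x.b / n j := by rw [← e3, e5]
      have m1 := c7 _ _ (b5 _ _ (hf y))
      rw [e6, e7, rf_rf, rf_rf] at m1
      obtain ⟨g1, g2, g3⟩ := hF2 _ _ _ _ _ _ _ _ _ _ (hf y) m1 (by simp; positivity)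
        (by simp; positivity) hc
      refine Or.inl ⟨(Prod.ext g1 (Prod.ext g2 g3)).symm, ?_⟩
      have x1 : Same i (w'.F ∆ Finset.range (j + 1)) (v.F ∆ Finset.range (j + 1)) :=
        same_flip (same_trans b3 c1) _
      rw [← hvF, hwF, symmDiff_symmDiff_cancel_right] at x1
      exact same_trans b1 (same_trans x1 c4)

theorem pd_le {k : ℕ} {y z : YY} (h : Path SY k y z) : pd SY y z ≤ k := Nat.sInf_le h

theorem pd_same (hOG : TOnGrid) (hB : TBdd) (i : ℕ) (y z : YY) (K : ℝ)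
    (h1 : |P1 i y - P1 i z| ≤ K) (h2 : |P2 i y - P2 i z| ≤ K) (h3 : Same i y.F z.F) :
    (pd SY y z : ℝ) ≤ K + 4 * n i + 1 + (i + 1) * (i + 1) := by
  obtain ⟨k, hk, hp⟩ := hB i y z h3
  have h4 := pd_le hp
  have h5 := d1_le hOG i y z K h1 h2
  have h6 : (pd SY y z : ℝ) ≤ (d1 y.x z.x : ℝ) + 1 + (i + 1) * (i + 1) := by
    exact_mod_cast h4.trans hk
  linarith

theorem dist_inv [MetricSpace YY] (hd : ∀ x y : YY, dist x y = (pd SY x y : ℝ)) (hOG : TOnGrid)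
    (hB : TBdd) (hFt : TFeat) (i : ℕ)
    (f : YY → Fin 3 × ℤ × ℤ) (hf : ∀ y, Ft i (P1 i y) (P2 i y) (f y)) (y z : YY)
    (h : Inv i f y z) : dist y z ≤ 20 * n i + 2 * (1 + (i + 1) * (i + 1)) + 1 := by
  have hn : (0 : ℝ) < n i := by exact_mod_cast n_pos i
  have hi : (0 : ℝ) ≤ (i + 1) * (i + 1) := by positivity
  obtain ⟨-, -, hF3, -⟩ := hFt hOG i
  rcases h with ⟨a1, a2⟩ | ⟨j, w, w', hij, hA, hwF, b1, ⟨q1, q2, hq, hq1, hq2⟩, b3,
    ⟨p1, p2, hp, hp1, hp2⟩, -⟩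
  · have hfz := hf z
    rw [a1] at hfz
    obtain ⟨r1, r2⟩ := hF3 _ _ _ _ _ _ _ (hf y) hfz
    have := pd_same hOG hB i y z _ r1 r2 a2
    rw [hd]
    linarith
  · obtain ⟨r1, r2⟩ := hF3 _ _ _ _ _ _ _ hq (hf y)
    obtain ⟨s1, s2⟩ := hF3 _ _ _ _ _ _ _ hp (hf z)
    have k1 : |P1 i y - P1 i w| ≤ 3 * n i := by
      rw [abs_le] at *
      constructor <;> linarith [hq1.1, hq1.2, r1.1, r1.2]
    have k2 : |P2 i y - P2 i w| ≤ 3 * n i := by
      rw [abs_le] at *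
      constructor <;> linarith [hq2.1, hq2.2, r2.1, r2.2]
    have k3 : |P1 i w' - P1 i z| ≤ 3 * n i := by
      rw [abs_le] at *
      constructor <;> linarith [hp1.1, hp1.2, s1.1, s1.2]
    have k4 : |P2 i w' - P2 i z| ≤ 3 * n i := by
      rw [abs_le] at *
      constructor <;> linarith [hp2.1, hp2.2, s2.1, s2.2]
    have l1 := pd_same hOG hB i y w _ k1 k2 b1
    have l2 := pd_same hOG hB i w' z _ k3 k4 b3
    have l3 : pd SY w w' ≤ 1 := by
      have hs : SY 0 w w' := Or.inr (Or.inl ⟨j, hA, hwF⟩)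
      have : Path SY (0 + 0 + 1) w w' := Path.cons (Path.nil w) hs
      exact pd_le this
    have l3' : (pd SY w w' : ℝ) ≤ 1 := by exact_mod_cast l3
    have t1 := dist_triangle y w z
    have t2 := dist_triangle w w' z
    rw [hd y w, hd w z] at t1
    rw [hd w z, hd w w', hd w' z] at t2
    linarith

theorem ok : TUpper := by
  intro hOG hPY hSt hMI hMB hMA hMR hA0 hGr hHo hB hFt _ hd R hR
  obtain ⟨i, hi⟩ := hPY hOG hSt hMI hMB hMA hMR hA0 hHo ⌊R⌋₊ (1 / 16) (by norm_num)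
  have hstep := hi i le_rfl
  obtain ⟨-, -, -, hpath, -⟩ := hGr hA0
  have hex : ∀ y : YY, ∃ g : Fin 3 × ℤ × ℤ, Ft i (P1 i y) (P2 i y) g := by
    intro y
    obtain ⟨kind, A, B, h⟩ := (hFt hOG i).1 y
    exact ⟨(kind, A, B), h⟩
  choose f hf using hex
  let col : YY → Fin 2 := fun y => if (f y).1 = 0 then 0 else 1
  have hcol : ∀ y z, col y = col z → ((f y).1 = 0 ↔ (f z).1 = 0) := by
    intro y z h
    by_cases h1 : (f y).1 = 0 <;> by_cases h2 : (f z).1 = 0 <;> simp_all [col]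
  let Rel : Fin 2 → YY → YY → Prop := fun c y z => col y = c ∧ col z = c ∧ dist y z ≤ R
  have hsym : ∀ c y z, Rel c y z → Rel c z y := by
    rintro c y z ⟨h1, h2, h3⟩
    exact ⟨h2, h1, by rwa [dist_comm]⟩
  have hrs : ∀ c y z, Relation.ReflTransGen (Rel c) y z → Relation.ReflTransGen (Rel c) z y := by
    intro c y z h
    induction h with
    | refl => exact Relation.ReflTransGen.refl
    | tail _ h2 ih => exact Relation.ReflTransGen.head (hsym _ _ _ h2) ih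
  have hcolor : ∀ c y z, col y = c → Relation.ReflTransGen (Rel c) y z → col z = c := by
    intro c y z hy h
    induction h with
    | refl => exact hy
    | tail _ h2 _ => exact h2.2.1
  have hinv : ∀ c y z, col y = c → Relation.ReflTransGen (Rel c) y z → Inv i f y z := by
    intro c y z hy h
    induction h with
    | refl => exact Or.inl ⟨rfl, same_refl _ _⟩
    | tail h1 h2 ih =>
      obtain ⟨h3, h4, h5⟩ := h2
      rw [hd] at h5
      have h6 := hstep _ _ (Nat.le_floor h5) (hpath _ _)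
      refine inv_step hA0 hHo hOG hFt i f hf _ _ _ (hcol _ _ (hy.trans h4.symm)) ih ?_
      exact step_of hMR hOG hFt i f hf _ _ (hcol _ _ (h3.trans h4.symm)) h6
  refine ⟨fun c => {A | ∃ y, col y = c ∧ A = {z | Relation.ReflTransGen (Rel c) y z}},
    ⟨20 * n i + 2 * (1 + (i + 1) * (i + 1)) + 1, ?_⟩, ?_, ?_⟩
  · rintro c A ⟨y, hy, rfl⟩ a ha b hb
    have ha' : Relation.ReflTransGen (Rel c) y a := ha
    have hb' : Relation.ReflTransGen (Rel c) y b := hb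
    have h1 : Relation.ReflTransGen (Rel c) a b := (hrs c _ _ ha').trans hb'
    exact dist_inv hd hOG hB hFt i f hf a b (hinv c a b (hcolor c y a hy ha') h1)
  · intro z
    exact ⟨col z, _, ⟨z, rfl, rfl⟩, Relation.ReflTransGen.refl⟩
  · rintro c A ⟨y, hy, rfl⟩ B ⟨y', hy', rfl⟩ hAB a ha b hb
    have ha' : Relation.ReflTransGen (Rel c) y a := ha
    have hb' : Relation.ReflTransGen (Rel c) y' b := hb
    by_contra hcon
    push Not at hcon
    apply hAB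
    have h1 : Rel c a b := ⟨hcolor c y a hy ha', hcolor c y' b hy' hb', hcon⟩
    have h2 : Relation.ReflTransGen (Rel c) y y' :=
      (ha'.tail h1).trans (hrs c _ _ hb')
    ext z
    constructor
    · intro hz
      exact (hrs c _ _ h2).trans hz
    · intro hz
      exact h2.trans hz

end Pool.Agent.H308R3.CTU
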